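import Pool.Agent.H17.KW.Chain

/-! The chase: a class killed by `K → F` lifts to the quotient complex. -/

open CategoryTheory Limits Abelian

universe w v u

namespace Pool.Agent.H18.KEW

open Pool.Agent.H17.KW

variable {C : Type u} [Category.{v} C] [Abelian C]

/-- The sequence `0 → ker τ → T → im τ → 0`. -/
noncomputable def kic {A B : C} (τ : A ⟶ B) : ShortComplex C :=
  ShortComplex.mk (kernel.ι τ) (Limits.factorThruImage τ) (by
    rw [← cancel_mono (Limits.image.ι τ), Category.assoc, Limits.image.fac, kernel.condition, zero_comp])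

lemma kic_shortExact {A B : C} (τ : A ⟶ B) : (kic τ).ShortExact := by
  refine ShortComplex.ShortExact.mk' ?_ (inferInstanceAs (Mono (kernel.ι τ)))
    (inferInstanceAs (Epi (Limits.factorThruImage τ)))
  rw [ShortComplex.exact_iff_exact_up_to_refinements]
  intro A' x hx
  have hex := ShortComplex.exact_kernel τ
  rw [ShortComplex.exact_iff_exact_up_to_refinements] at hex
  refine hex x ?_
  have aux : ∀ x : A' ⟶ A, x ≫ Limits.factorThruImage τ = 0 → x ≫ τ = 0 := by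
    intro x h1
    conv_lhs => rw [← Limits.image.fac τ]
    rw [← Category.assoc, h1, zero_comp]
  exact aux x hx

section

variable (D : ℕ → C) (δ : ∀ s, D (s + 1) ⟶ D s) (T : ℕ → C) (τ : ∀ s, T (s + 1) ⟶ T s)
  (q : ∀ s, D s ⟶ T s) (hq : ∀ s, δ s ≫ q s = q (s + 1) ≫ τ s)

include hq in
lemma zq_aux (s : ℕ) : (kernel.ι (δ s) ≫ q (s + 1)) ≫ τ s = 0 := by
  rw [Category.assoc, ← hq, ← Category.assoc, kernel.condition, zero_comp]

/-- The map of cycles. -/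
noncomputable def zq : ∀ s, Z D δ s ⟶ Z T τ s
  | 0 => q 0
  | s + 1 => kernel.lift (τ s) (kernel.ι (δ s) ≫ q (s + 1)) (zq_aux D δ T τ q hq s)

lemma zq_ι (s : ℕ) : zq D δ T τ q hq s ≫ Zι T τ s = Zι D δ s ≫ q s := by
  cases s with
  | zero =>
    change q 0 ≫ 𝟙 _ = 𝟙 _ ≫ q 0
    rw [Category.comp_id, Category.id_comp]
  | succ s => exact kernel.lift_ι _ _ _

variable (w : ∀ s, δ (s + 1) ≫ δ s = 0) (w' : ∀ s, τ (s + 1) ≫ τ s = 0)

include w' in
lemma bz_aux (s : ℕ) : Limits.image.ι (τ (s + 1)) ≫ τ s = 0 := by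
  rw [← cancel_epi (Limits.factorThruImage (τ (s + 1))), ← Category.assoc, Limits.image.fac, w',
    comp_zero]

/-- The inclusion of the boundaries in the cycles. -/
noncomputable def bz : ∀ s, Limits.image (τ s) ⟶ Z T τ s
  | 0 => Limits.image.ι (τ 0)
  | s + 1 => kernel.lift (τ s) (Limits.image.ι (τ (s + 1))) (bz_aux T τ w' s)

lemma bz_ι (s : ℕ) : bz T τ w' s ≫ Zι T τ s = Limits.image.ι (τ s) := by
  cases s with
  | zero =>
    change Limits.image.ι (τ 0) ≫ 𝟙 _ = _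
    rw [Category.comp_id]
  | succ s => exact kernel.lift_ι _ _ _

include hq in
/-- The map from the cycles to the boundaries. -/
lemma exists_zb {s : ℕ} (h : (SC D δ w s).ShortExact) :
    ∃ b : Z D δ s ⟶ Limits.image (τ s), toZ D δ w s ≫ b = q (s + 1) ≫ Limits.factorThruImage (τ s) ∧
      b ≫ bz T τ w' s = zq D δ T τ q hq s := by
  have hz : Zι D δ (s + 1) ≫ (q (s + 1) ≫ Limits.factorThruImage (τ s)) = 0 := by
    rw [← cancel_mono (Limits.image.ι (τ s)), Category.assoc, Category.assoc, Limits.image.fac, ← hq,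
      ← toZ_Zι D δ w s, ← Category.assoc, ← Category.assoc, Zι_toZ, zero_comp, zero_comp,
      zero_comp]
  have hc := h.gIsCokernel
  refine ⟨hc.desc (CokernelCofork.ofπ (q (s + 1) ≫ Limits.factorThruImage (τ s)) hz),
      hc.fac (CokernelCofork.ofπ (q (s + 1) ≫ Limits.factorThruImage (τ s)) hz) WalkingParallelPair.one,
      ?_⟩
  have h1 : toZ D δ w s ≫ hc.desc (CokernelCofork.ofπ (q (s + 1) ≫ Limits.factorThruImage (τ s)) hz) =
      q (s + 1) ≫ Limits.factorThruImage (τ s) :=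
    hc.fac (CokernelCofork.ofπ (q (s + 1) ≫ Limits.factorThruImage (τ s)) hz) WalkingParallelPair.one
  have he : Epi (toZ D δ w s) := h.epi_g
  rw [← cancel_epi (toZ D δ w s), ← cancel_mono (Zι T τ s), ← Category.assoc, h1,
    Category.assoc, Category.assoc, bz_ι, Limits.image.fac, Category.assoc, zq_ι, ← Category.assoc,
    toZ_Zι, hq]

variable [HasExt.{w} C]

variable {D δ T τ q}

/-- One step: the image of the next class is the connecting image of the class of the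
boundary. -/
lemma step {s : ℕ} (h : (SC D δ w s).ShortExact) (b : Z D δ s ⟶ Limits.image (τ s))
    (hb : toZ D δ w s ≫ b = q (s + 1) ≫ Limits.factorThruImage (τ s)) :
    (ec h).comp (Ext.mk₀ (zq D δ T τ q hq (s + 1))) (add_zero 1) =
      (Ext.mk₀ b).comp (kic_shortExact (τ s)).extClass (zero_add 1) := by
  let m : SC D δ w s ⟶ kic (τ s) :=
    { τ₁ := zq D δ T τ q hq (s + 1)
      τ₂ := q (s + 1)
      τ₃ := b
      comm₁₂ := zq_ι D δ T τ q hq (s + 1)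
      comm₂₃ := hb.symm }
  exact ShortComplex.ShortExact.extClass_naturality h (kic_shortExact (τ s)) m

include hq in
/-- **The chase.** -/
theorem chase {e : ℕ} {K F : C} {k : K ⟶ D (e + 1)} (hR : IsRes D δ e k)
    (w' : ∀ s, τ (s + 1) ≫ τ s = 0) (ρ : K ⟶ F) [Epi ρ] (φ : F ⟶ T (e + 1))
    (hφ : ρ ≫ φ = k ≫ q (e + 1)) (A : C)
    (hvan : ∀ s, 1 ≤ s → s ≤ e → Subsingleton (Ext A (T (s + 1)) s))
    (x : Ext A (Z D δ 0) 0)
    (hx : (hR.cyc A x).comp (Ext.mk₀ ρ) (add_zero (e + 1)) = 0) :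
    ∃ y : Ext A (T 1) 0, y.comp (Ext.mk₀ (τ 0)) (add_zero 0) =
      x.comp (Ext.mk₀ (show Z D δ 0 ⟶ T 0 from q 0)) (add_zero 0) := by
  let c : ∀ s, s ≤ e + 1 → Ext A (Z D δ s) s :=
    fun s hs => conn D δ hR.w A (e + 1) hR.shortExact s hs x
  let zz : ∀ s, s ≤ e + 1 → Ext A (Z T τ s) s :=
    fun s hs => (c s hs).comp (Ext.mk₀ (zq D δ T τ q hq s)) (add_zero s)
  have hφ' : φ ≫ τ e = 0 := by
    rw [← cancel_epi ρ, ← Category.assoc, hφ, Category.assoc, ← hq, ← Category.assoc, hR.w0,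
      zero_comp, comp_zero]
  have hiso := hR.isIso_toZ
  -- the last class vanishes
  have hlast : zz (e + 1) le_rfl = 0 := by
    have h1 : (hR.cyc A x).comp (Ext.mk₀ hR.toZ) (add_zero (e + 1)) = c (e + 1) le_rfl := by
      change ((c (e + 1) le_rfl).comp (Ext.mk₀ (inv hR.toZ)) (add_zero (e + 1))).comp
        (Ext.mk₀ hR.toZ) (add_zero (e + 1)) = _
      rw [Ext.comp_assoc (a₁₂ := e + 1) (a₂₃ := 0) _ _ _ (by lia) (by lia) (by lia),
        Ext.mk₀_comp_mk₀, IsIso.inv_hom_id, Ext.comp_mk₀_id]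
    have h2 : hR.toZ ≫ zq D δ T τ q hq (e + 1) =
        ρ ≫ (show F ⟶ Z T τ (e + 1) from kernel.lift (τ e) φ hφ') := by
      rw [← cancel_mono (Zι T τ (e + 1)), Category.assoc, zq_ι, Category.assoc]
      have h3 : (show F ⟶ Z T τ (e + 1) from kernel.lift (τ e) φ hφ') ≫ Zι T τ (e + 1) = φ :=
        kernel.lift_ι _ _ _
      have h4 : hR.toZ ≫ Zι D δ (e + 1) = k := kernel.lift_ι _ _ _
      rw [h3, hφ, ← Category.assoc, h4]
    change (c (e + 1) le_rfl).comp (Ext.mk₀ (zq D δ T τ q hq (e + 1))) (add_zero (e + 1)) = 0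
    rw [← h1, Ext.comp_assoc (a₁₂ := e + 1) (a₂₃ := 0) _ _ _ (by lia) (by lia) (by lia),
      Ext.mk₀_comp_mk₀, h2, ← Ext.mk₀_comp_mk₀,
      ← Ext.comp_assoc (a₁₂ := e + 1) (a₂₃ := 0) _ _ _ (by lia) (by lia) (by lia), hx,
      Ext.zero_comp]
  -- the step
  have hstep : ∀ s (hs : s + 1 ≤ e + 1), zz (s + 1) hs = 0 →
      ∃ y : Ext A (T (s + 1)) s, zz s (Nat.le_of_succ_le hs) =
        (y.comp (Ext.mk₀ (Limits.factorThruImage (τ s))) (add_zero s)).comp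
          (Ext.mk₀ (bz T τ w' s)) (add_zero s) := by
    intro s hs h0
    obtain ⟨b, hb1, hb2⟩ := exists_zb D δ T τ q hq hR.w w' (hR.shortExact s hs)
    have h1 := step hq hR.w (hR.shortExact s hs) b hb1
    have h2 : ((c s (Nat.le_of_succ_le hs)).comp (Ext.mk₀ b) (add_zero s)).comp
        (kic_shortExact (τ s)).extClass rfl = zz (s + 1) hs := by
      change _ = ((c s (Nat.le_of_succ_le hs)).comp (ec (hR.shortExact s hs)) rfl).comp
        (Ext.mk₀ (zq D δ T τ q hq (s + 1))) (add_zero (s + 1))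
      rw [Ext.comp_assoc (a₁₂ := s + 1) (a₂₃ := 1) _ _ _ (by lia) (by lia) (by lia), h1,
        Ext.comp_assoc (a₁₂ := s) (a₂₃ := 1) _ _ _ (by lia) (by lia) (by lia)]
      rfl
    rw [h0] at h2
    obtain ⟨y, hy⟩ := Ext.covariant_sequence_exact₃ A (kic_shortExact (τ s)) _ rfl h2
    refine ⟨y, ?_⟩
    change (c s (Nat.le_of_succ_le hs)).comp (Ext.mk₀ (zq D δ T τ q hq s)) (add_zero s) = _
    rw [← hb2, ← Ext.mk₀_comp_mk₀,
      ← Ext.comp_assoc (a₁₂ := s) (a₂₃ := 0) _ _ _ (by lia) (by lia) (by lia)]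
    exact congrArg (fun z => Ext.comp z (Ext.mk₀ (bz T τ w' s)) (add_zero s)) hy.symm
  have hdesc : ∀ t s (hs : s ≤ e + 1), s + t = e + 1 → 1 ≤ s → zz s hs = 0 := by
    intro t
    induction t with
    | zero =>
      intro s hs h1 h2
      obtain rfl : s = e + 1 := by omega
      exact hlast
    | succ t ih =>
      intro s hs h1 h2
      obtain ⟨y, hy⟩ := hstep s (by omega) (ih (s + 1) (by omega) (by omega) (by omega))
      rw [hy, @Subsingleton.elim _ (hvan s h2 (by omega)) y 0, Ext.zero_comp, Ext.zero_comp]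
  obtain ⟨y, hy⟩ := hstep 0 (by omega) (hdesc e 1 (by omega) (by omega) le_rfl)
  refine ⟨y, ?_⟩
  have h1 : zz 0 (Nat.zero_le _) =
      x.comp (Ext.mk₀ (show Z D δ 0 ⟶ T 0 from q 0)) (add_zero 0) := rfl
  rw [← h1]
  refine Eq.trans ?_ hy.symm
  rw [Ext.comp_assoc (a₁₂ := 0) (a₂₃ := 0) _ _ _ (by lia) (by lia) (by lia), Ext.mk₀_comp_mk₀]
  have h2 : Limits.factorThruImage (τ 0) ≫ bz T τ w' 0 = τ 0 := Limits.image.fac (τ 0)
  rw [h2]
  rfl

include hq in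
/-- The chase for a morphism. -/
theorem chase_hom {e : ℕ} {K F : C} {k : K ⟶ D (e + 1)} (hR : IsRes D δ e k)
    (w' : ∀ s, τ (s + 1) ≫ τ s = 0) (ρ : K ⟶ F) [Epi ρ] (φ : F ⟶ T (e + 1))
    (hφ : ρ ≫ φ = k ≫ q (e + 1)) (A : C)
    (hvan : ∀ s, 1 ≤ s → s ≤ e → Subsingleton (Ext A (T (s + 1)) s))
    (z : A ⟶ D 0)
    (hx : (hR.cyc A (Ext.mk₀ (show A ⟶ Z D δ 0 from z))).comp (Ext.mk₀ ρ)
      (add_zero (e + 1)) = 0) :
    ∃ y : A ⟶ T 1, y ≫ τ 0 = z ≫ q 0 := by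
  obtain ⟨y, hy⟩ := chase hq hR w' ρ φ hφ A hvan _ hx
  obtain ⟨y', rfl⟩ := (Ext.mk₀_bijective A (T 1)).2 y
  refine ⟨y', (Ext.mk₀_bijective A (T 0)).1 ?_⟩
  rw [← Ext.mk₀_comp_mk₀, hy, Ext.mk₀_comp_mk₀]
  rfl

end

section sheaf

open TopologicalSpace Opposite

variable {X : TopCat.{u}}
variable {D T : ℕ → Sheaf (Opens.grothendieckTopology X) AddCommGrpCat.{u}}
  {δ : ∀ s, D (s + 1) ⟶ D s} {τ : ∀ s, T (s + 1) ⟶ T s} {q : ∀ s, D s ⟶ T s}

/-- The chase for sheaves on a space, with sections. -/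
theorem chase_sections (hq : ∀ s, δ s ≫ q s = q (s + 1) ≫ τ s) {e : ℕ}
    {K F : Sheaf (Opens.grothendieckTopology X) AddCommGrpCat.{u}} {k : K ⟶ D (e + 1)}
    (hR : IsRes D δ e k) (w' : ∀ s, τ (s + 1) ≫ τ s = 0) (ρ : K ⟶ F) [Epi ρ]
    (φ : F ⟶ T (e + 1)) (hφ : ρ ≫ φ = k ≫ q (e + 1))
    (hvan : ∀ s, 1 ≤ s → s ≤ e → Subsingleton (Sheaf.H (T (s + 1)) s))
    (x : Sheaf.H (D 0) 0)
    (hx : Sheaf.H.map ρ (e + 1) (hR.cyc _ (show Ext _ (Z D δ 0) 0 from x)) = 0) :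
    ∃ y : (T 1).obj.obj (op ⊤), (τ 0).hom.app (op ⊤) y =
      (q 0).hom.app (op ⊤) (Sheaf.H.equiv₀ (D 0) (isTerminalTop (α := Opens X)) x) := by
  obtain ⟨y, hy⟩ := chase hq hR w' ρ φ hφ _ hvan x hx
  refine ⟨Sheaf.H.equiv₀ (T 1) (isTerminalTop (α := Opens X)) y, ?_⟩
  rw [Sheaf.H.equiv₀_naturality, Sheaf.H.equiv₀_naturality]
  exact congrArg _ hy

end sheaf

end Pool.Agent.H18.KEW
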