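import Mathlib

/-! Injective abelian sheaves are flasque, flasque sheaves are acyclic. -/

open CategoryTheory TopologicalSpace Opposite Abelian

universe u

namespace Pool.Agent.H18.KEW

noncomputable section

variable {X : TopCat.{u}}

/-- Abelian sheaves. -/
abbrev Sh (X : TopCat.{u}) := Sheaf (Opens.grothendieckTopology X) AddCommGrpCat.{u}

/-- The free abelian presheaf on a representable presheaf. -/
abbrev fr : Opens X ⥤ (Opens X)ᵒᵖ ⥤ AddCommGrpCat.{u} :=
  yoneda ⋙ (Functor.whiskeringRight _ _ _).obj AddCommGrpCat.free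

/-- Morphisms from the free presheaf are sections. -/
def frE (P : (Opens X)ᵒᵖ ⥤ AddCommGrpCat.{u}) (U : Opens X) :
    (fr.obj U ⟶ P) ≃ (P.obj (op U) : Type u) :=
  ((AddCommGrpCat.adj.whiskerRight (Opens X)ᵒᵖ).homEquiv (yoneda.obj U) P).trans
    (yonedaEquiv (F := P ⋙ forget AddCommGrpCat))

lemma frE_map (P : (Opens X)ᵒᵖ ⥤ AddCommGrpCat.{u}) {U V : Opens X} (f : U ⟶ V)
    (b : fr.obj V ⟶ P) : frE P U (fr.map f ≫ b) = P.map f.op (frE P V b) := by
  have h1 := (AddCommGrpCat.adj.whiskerRight (Opens X)ᵒᵖ).homEquiv_naturality_left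
    (yoneda.map f) b
  have h2 := yonedaEquiv_naturality ((AddCommGrpCat.adj.whiskerRight (Opens X)ᵒᵖ).homEquiv
    (yoneda.obj V) P b) f
  unfold frE
  rw [Equiv.trans_apply, Equiv.trans_apply]
  refine Eq.trans ?_ h2.symm
  exact congrArg _ h1

instance mono_fr {U V : Opens X} (f : U ⟶ V) : Mono (fr.map f) := by
  have h1 : ∀ W, Mono ((fr.map f).app W) := by
    intro W
    have h2 : Mono ((yoneda.map f).app W) := by
      rw [mono_iff_injective]
      intro a b _
      exact Subsingleton.elim (α := (W.unop ⟶ U)) a b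
    exact inferInstanceAs (Mono (AddCommGrpCat.free.map ((yoneda.map f).app W)))
  exact NatTrans.mono_of_mono_app _

theorem isFlasque_of_injective (I : Sh X) [Injective I] : TopCat.Presheaf.IsFlasque I.obj where
  epi {U V} i := by
    refine (AddCommGrpCat.epi_iff_surjective _).mpr ?_
    intro s
    let a : fr.obj V.unop ⟶ I.obj := (frE I.obj V.unop).symm s
    let J := Opens.grothendieckTopology X
    let adj := sheafificationAdjunction J AddCommGrpCat.{u}
    let L := presheafToSheaf J AddCommGrpCat.{u}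
    let a' : L.obj (fr.obj V.unop) ⟶ I := (adj.homEquiv _ _).symm a
    let b' : L.obj (fr.obj U.unop) ⟶ I := Injective.factorThru a' (L.map (fr.map i.unop))
    have hb' : L.map (fr.map i.unop) ≫ b' = a' := Injective.comp_factorThru _ _
    let b : fr.obj U.unop ⟶ I.obj := adj.homEquiv _ _ b'
    have hb : fr.map i.unop ≫ b = a := by
      have h1 := adj.homEquiv_naturality_left (fr.map i.unop) b'
      change fr.map i.unop ≫ adj.homEquiv _ _ b' = a
      rw [← h1, hb']
      exact (adj.homEquiv _ _).apply_symm_apply a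
    refine ⟨frE I.obj U.unop b, ?_⟩
    have h1 := frE_map I.obj i.unop b
    rw [hb] at h1
    rw [show i = i.unop.op from rfl]
    rw [← h1]
    exact (frE I.obj V.unop).apply_symm_apply s

theorem subsingleton_H_of_isFlasque (F : Sh X) (n : ℕ) (hF : TopCat.Presheaf.IsFlasque F.obj) :
    Subsingleton (Sheaf.H F (n + 1)) := by
  induction n generalizing F with
  | zero =>
    let S : ShortComplex (Sh X) := ShortComplex.mk (Injective.ι F) (Limits.cokernel.π _)
      (Limits.cokernel.condition _)
    have hS : S.ShortExact := ShortComplex.ShortExact.mk' (ShortComplex.exact_cokernel _)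
      (inferInstanceAs (Mono (Injective.ι F))) (inferInstanceAs (Epi (Limits.cokernel.π _)))
    refine subsingleton_of_forall_eq 0 (fun x => ?_)
    have hI : Subsingleton (Sheaf.H S.X₂ (0 + 1)) :=
      inferInstanceAs (Subsingleton (Sheaf.H (Injective.under F) (0 + 1)))
    obtain ⟨y, hy⟩ := Ext.covariant_sequence_exact₁ _ hS x (Subsingleton.elim _ _) rfl
    have hT : Limits.IsTerminal (⊤ : Opens X) := Limits.isTerminalTop
    have : TopCat.Presheaf.IsFlasque S.X₁.obj := hF
    have h1 := TopCat.Sheaf.IsFlasque.epi_of_shortExact (U := ⊤) hS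
    rw [AddCommGrpCat.epi_iff_surjective] at h1
    obtain ⟨t, ht⟩ := h1 (Sheaf.H.equiv₀ S.X₃ hT y)
    have h2 : Sheaf.H.map S.g 0 ((Sheaf.H.equiv₀ S.X₂ hT).symm t) = y := by
      rw [Sheaf.H.equiv₀_symm_naturality, AddEquiv.symm_apply_eq]
      exact ht
    rw [← hy, ← h2, Sheaf.H.map_apply, Ext.comp_assoc (a₁₂ := 0) (a₂₃ := 1) _ _ _ (by lia)
      (by lia) (by lia), hS.comp_extClass, Ext.comp_zero]
  | succ n ih =>
    let S : ShortComplex (Sh X) := ShortComplex.mk (Injective.ι F) (Limits.cokernel.π _)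
      (Limits.cokernel.condition _)
    have hS : S.ShortExact := ShortComplex.ShortExact.mk' (ShortComplex.exact_cokernel _)
      (inferInstanceAs (Mono (Injective.ι F))) (inferInstanceAs (Epi (Limits.cokernel.π _)))
    have h1 : TopCat.Presheaf.IsFlasque S.X₁.obj := hF
    have h2 : TopCat.Presheaf.IsFlasque S.X₂.obj := isFlasque_of_injective (Injective.under F)
    have h3 : TopCat.Sheaf.IsFlasque S.X₃ :=
      TopCat.Sheaf.IsFlasque.of_shortExact_of_isFlasque₁₂ hS
    have h4 := ih S.X₃ h3
    refine subsingleton_of_forall_eq 0 (fun x => ?_)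
    have hI : Subsingleton (Sheaf.H S.X₂ (n + 1 + 1)) :=
      inferInstanceAs (Subsingleton (Sheaf.H (Injective.under F) (n + 1 + 1)))
    obtain ⟨y, hy⟩ := Ext.covariant_sequence_exact₁ _ hS x (Subsingleton.elim _ _) rfl
    rw [← hy, Subsingleton.elim y 0, Ext.zero_comp]

end

end Pool.Agent.H18.KEW
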